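import Mathlib
import Pool.Agent.helper751_mad.Total
import Pool.Agent.helper751_mad.Hit
import Pool.Agent.helper751_mad.Aleph1
import Pool.Agent.helper751_mad.CovLower

set_option autoImplicit false
open MeasureTheory Set Cardinal Pool.Agent.helper751_mad

namespace Pool.Agent.Results.MP_da56a7_lc.AlephOneObstruction

/-- Let `X` carry a total probability measure making `#X` real-valued measurable. Every almost
disjoint family `A` with `#X ≤ #A` has a subfamily `A₀` of size `ℵ₁` such that:
* there is a Borel law `ν` on the infinite subsets of `ℕ` such that every `b ⊆ ℕ` which is almost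
  disjoint from all members of `A₀` other than itself meets a `ν`-random set almost surely in a
  finite set;
* every maximal almost disjoint family containing `A₀` has at least `cov(N)` members outside
  `A₀`. -/
theorem result (X : Type) [MeasurableSpace X] (μ : Measure X) (h : IsRVM X μ)
    (A : Set (Set ℕ)) (hA : IsAD A) (hXA : #X ≤ #A) :
    ∃ A₀ ⊆ A, #A₀ = ℵ₁ ∧
      (∃ ν : Measure (Set ℕ), IsProbabilityMeasure ν ∧ (∀ᵐ s ∂ν, s.Infinite) ∧
        ∀ b : Set ℕ, (∀ a ∈ A₀, a ≠ b → (a ∩ b).Finite) → ν {s | (s ∩ b).Infinite} = 0) ∧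
      ∀ B : Set (Set ℕ), IsMAD B → A₀ ⊆ B → covNull ≤ #(B \ A₀ : Set (Set ℕ)) := by
  classical
  have := h.prob
  have := standardBorel_setNat
  have hAc : #A ≤ 𝔠 := by
    refine (mk_set_le A).trans ?_
    rw [mk_set, mk_nat, two_power_aleph0]
  have hc : #X ≤ 𝔠 := hXA.trans hAc
  obtain ⟨e0⟩ := (Cardinal.le_def X A).1 hXA
  let e : X → Set ℕ := fun x => (e0 x : Set ℕ)
  have he : Function.Injective e := Subtype.val_injective.comp e0.injective
  have heA : ∀ x, e x ∈ A := fun x => (e0 x).2
  have hem : Measurable e := h.measurable e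
  have : IsProbabilityMeasure (μ.map e) := Measure.isProbabilityMeasure_map hem.aemeasurable
  set ρ := μ.map e with hρ
  have hsing : ∀ s, ρ {s} = 0 := fun s => h.map_singleton he s
  have hemb := measurableEmbedding_embeddingReal (Set ℕ)
  set c := embeddingReal (Set ℕ) with hcdef
  obtain ⟨T, hTe, hT1, hT0⟩ := h.exists_aleph_one_nonnull (c ∘ e)
  have hA₀ : ρ (c ⁻¹' T) ≠ 0 := by
    rw [← hemb.map_apply, hρ, Measure.map_map hemb.measurable hem]
    exact hT0
  have hsub : c ⁻¹' T ⊆ A := by
    intro s hs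
    obtain ⟨x, hx⟩ := hTe hs
    rw [← hemb.injective hx]
    exact heA x
  have hle : #(c ⁻¹' T) ≤ ℵ₁ := (mk_preimage_of_injective c T hemb.injective).trans hT1
  have heq : #(c ⁻¹' T) = ℵ₁ := by
    refine le_antisymm hle ?_
    by_contra hlt
    push Not at hlt
    rw [← succ_aleph0, Order.lt_succ_iff, le_aleph0_iff_set_countable] at hlt
    refine hA₀ ?_
    rw [← biUnion_of_singleton (c ⁻¹' T)]
    exact (measure_biUnion_null_iff hlt).2 fun y _ => hsing y
  refine ⟨c ⁻¹' T, hsub, heq, ?_⟩
  set A₀ := c ⁻¹' T with hA₀def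
  set H := toMeasurable ρ A₀ with hH
  have hHm : MeasurableSet H := measurableSet_toMeasurable _ _
  have hH0 : ρ H ≠ 0 := by rwa [hH, measure_toMeasurable]
  have hν1 : ∀ᵐ s ∂(ProbabilityTheory.cond ρ H), s.Infinite := by
    have hms : MeasurableSet {s : Set ℕ | ¬ s.Infinite} := measurableSet_infinite.compl
    rw [ae_iff, ProbabilityTheory.cond_apply hHm, hH,
      Measure.measure_toMeasurable_inter hms (measure_ne_top _ _)]
    have : A₀ ∩ {a : Set ℕ | ¬ a.Infinite} = ∅ := by
      ext s
      simp only [mem_inter_iff, mem_ofPred_eq, mem_empty_iff_false, iff_false,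
        not_and, not_not]
      exact fun hs => hA.1 s (hsub hs)
    rw [this, measure_empty, mul_zero]
  have hν2 : ∀ b : Set ℕ, (∀ a ∈ A₀, a ≠ b → (a ∩ b).Finite) →
      (ProbabilityTheory.cond ρ H) {s | (s ∩ b).Infinite} = 0 := by
    intro b hb
    rw [ProbabilityTheory.cond_apply hHm, hH,
      Measure.measure_toMeasurable_inter (measurableSet_hit b) (measure_ne_top _ _)]
    have : ρ (A₀ ∩ {s | (s ∩ b).Infinite}) = 0 := by
      refine measure_mono_null ?_ (hsing b)
      rintro s ⟨hsT, hs⟩
      by_contra hne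
      exact hs (hb s hsT hne)
    rw [this, mul_zero]
  have hν : IsProbabilityMeasure (ProbabilityTheory.cond ρ H) :=
    ProbabilityTheory.cond_isProbabilityMeasure hH0
  refine ⟨⟨_, hν, hν1, hν2⟩, fun B hB hAB => ?_⟩
  have h1 : covNull ≤ #B := by
    refine covNull_le_of_law hB (ProbabilityTheory.cond ρ H) hν1 fun b hb => hν2 b ?_
    intro a ha hne
    exact hB.2.1.2 a (hAB ha) b hb hne
  have h2 : ℵ₁ < covNull := (h.aleph_one_lt hc).trans_le (h.le_covNull hc)
  by_contra hlt
  push Not at hlt
  have h3 : #B ≤ #(B \ A₀ : Set (Set ℕ)) + #A₀ := by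
    have : B = (B \ A₀) ∪ A₀ := by rw [sdiff_union_self, union_eq_self_of_subset_right hAB]
    calc #B = #((B \ A₀) ∪ A₀ : Set (Set ℕ)) := by rw [← this]
      _ ≤ _ := mk_union_le _ _
  have h4 : #(B \ A₀ : Set (Set ℕ)) + #A₀ < covNull := by
    refine add_lt_of_lt ?_ hlt ?_
    · exact (aleph0_le_aleph 1).trans h2.le
    · rw [heq]; exact h2
  exact absurd (h1.trans h3) (not_le.2 h4)

end Pool.Agent.Results.MP_da56a7_lc.AlephOneObstruction
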