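import Mathlib
import Pool.Agent.helper751_mad.Defs
import Pool.Agent.helper751_mad.Defs2
import Pool.Agent.helper751_mad.Spec

set_option autoImplicit false
open MeasureTheory Set Cardinal Pool.Agent.helper751_mad

namespace Pool.Agent.Results.MP_da56a7_lc.DominatingAlephOne

/-- Let `X` carry a total probability measure making `#X` real-valued measurable. If there is a
dominating family of at most `ℵ₁` functions, then there is an infinite maximal almost disjoint
family of size less than `#X`; when `#X ≤ 𝔠`, there is one of size exactly `ℵ₁`. -/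
theorem result (X : Type) [MeasurableSpace X] (μ : Measure X) (h : IsRVM X μ)
    (D : Set (ℕ → ℕ)) (hD : Dominating D) (hD1 : #D ≤ ℵ₁) :
    ∃ A : Set (Set ℕ), IsMAD A ∧ #A < #X ∧ (#X ≤ 𝔠 → #A = ℵ₁) := by
  by_cases hc : #X ≤ 𝔠
  · obtain ⟨A, hA, hA1⟩ := h.exists_isMAD_aleph_one hc hD hD1
    exact ⟨A, hA, by rw [hA1]; exact h.aleph_one_lt hc, fun _ => hA1⟩
  · obtain ⟨A, hA⟩ := exists_isMAD
    refine ⟨A, hA, ?_, fun h1 => absurd h1 hc⟩
    refine lt_of_le_of_lt ?_ (not_le.1 hc)
    refine (mk_set_le A).trans ?_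
    rw [mk_set, mk_nat, two_power_aleph0]

end Pool.Agent.Results.MP_da56a7_lc.DominatingAlephOne
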