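import Mathlib
import Pool.Agent.helper751_mad.Total
import Pool.Agent.helper751_mad.Hit
import Pool.Agent.helper751_mad.Uniform

set_option autoImplicit false
open MeasureTheory Set Cardinal Pool.Agent.helper751_mad

namespace Pool.Agent.Results.MP_da56a7_lc.Equivalence

/-- The family `A` is indestructible by random forcing: for every Borel law `ν` on the infinite
subsets of `ℕ`, some member of `A` meets a `ν`-random set in an infinite set with positive
probability. -/
def RandomIndestructible (A : Set (Set ℕ)) : Prop :=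
  ∀ ν : Measure (Set ℕ), IsProbabilityMeasure ν → (∀ᵐ s ∂ν, s.Infinite) →
    ∃ a ∈ A, ν {s | (s ∩ a).Infinite} ≠ 0

/-- The set `A` is universally null: it has outer measure zero for every Borel probability
measure vanishing on points. -/
def UniversallyNull (A : Set (Set ℕ)) : Prop :=
  ∀ ν : Measure (Set ℕ), IsProbabilityMeasure ν → (∀ s, ν {s} = 0) → ν A = 0

/-- If `#X ≤ 𝔠` is real-valued measurable, then for an infinite maximal almost disjoint family
`A` the following are equivalent: `#A < #X`; `#A < cov(N)`; `A` is indestructible by random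
forcing; `A` is universally null. -/
theorem result (X : Type) [MeasurableSpace X] (μ : Measure X) (h : IsRVM X μ) (hc : #X ≤ 𝔠)
    (A : Set (Set ℕ)) (hA : IsMAD A) :
    List.TFAE [#A < #X, #A < covNull, RandomIndestructible A, UniversallyNull A] := by
  classical
  have := h.prob
  have := standardBorel_setNat
  tfae_have 1 → 3 := by
    intro hlt ν hν hinf
    by_contra hcon
    push Not at hcon
    obtain ⟨f, hf⟩ := h.exists_map_eq hc ν
    have hfm : Measurable f := h.measurable f
    have h0 : ∀ E : Set (Set ℕ), MeasurableSet E → ν E = 0 → μ (f ⁻¹' E) = 0 := by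
      intro E hE h0
      rw [← Measure.map_apply hfm hE, hf, h0]
    have h1 : μ (⋃ a : A, f ⁻¹' {s | (s ∩ (a : Set ℕ)).Infinite}) = 0 :=
      h.null_iUnion hlt _ fun a => h0 _ (measurableSet_hit _) (hcon a a.2)
    have h2 : μ (f ⁻¹' {s | ¬ s.Infinite}) = 0 :=
      h0 _ measurableSet_infinite.compl (ae_iff.1 hinf)
    have h3 : (Set.univ : Set X) ⊆
        (⋃ a : A, f ⁻¹' {s | (s ∩ (a : Set ℕ)).Infinite}) ∪ f ⁻¹' {s | ¬ s.Infinite} := by
      intro x _
      by_cases hx : (f x).Infinite
      · obtain ⟨a, ha, hxa⟩ := hA.2.2 _ hx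
        exact Or.inl (mem_iUnion.2 ⟨⟨a, ha⟩, hxa⟩)
      · exact Or.inr hx
    have h4 := measure_mono_null h3 (measure_union_null h1 h2)
    rw [h.tot] at h4
    exact one_ne_zero h4
  tfae_have 3 → 4 := by
    intro h3 ν hν hs
    by_contra hne
    obtain ⟨ν', hν', hinf, h0⟩ := exists_law_of_nonnull hA.2.1 Subset.rfl ν hs hne
    obtain ⟨a, ha, hne⟩ := h3 ν' hν' hinf
    exact hne (h0 a ha)
  tfae_have 4 → 1 := by
    intro h4
    by_contra hge
    push Not at hge
    obtain ⟨e0⟩ := (Cardinal.le_def X A).1 hge
    let e : X → Set ℕ := fun x => (e0 x : Set ℕ)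
    have he : Function.Injective e := Subtype.val_injective.comp e0.injective
    have hem : Measurable e := h.measurable e
    have : IsProbabilityMeasure (μ.map e) := Measure.isProbabilityMeasure_map hem.aemeasurable
    have h5 := h4 (μ.map e) this (fun s => h.map_singleton he s)
    have h6 : μ Set.univ = 0 := by
      obtain ⟨t, ht1, ht2, ht3⟩ := exists_measurable_superset_of_null h5
      rw [Measure.map_apply hem ht2] at ht3
      refine measure_mono_null (fun x _ => ht1 (e0 x).2) ht3
    rw [h.tot] at h6
    exact one_ne_zero h6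
  tfae_have 1 → 2 := by
    intro hlt
    by_contra hge
    push Not at hge
    -- `cov(N)` is at least `#X`
    have hcov : covNull < #X := hge.trans_lt hlt
    have hne : {c | ∃ F : Set (Set ℝ), (∀ N ∈ F, volume N = 0) ∧ ⋃₀ F = Set.univ ∧
        Cardinal.mk F = c}.Nonempty := by
      refine ⟨_, Set.range (fun x : ℝ => ({x} : Set ℝ)), ?_, ?_, rfl⟩
      · rintro _ ⟨x, rfl⟩
        exact Real.volume_singleton
      · rw [sUnion_range]; ext x; simp
    obtain ⟨F, hF0, hFc, hF⟩ := csInf_mem hne
    obtain ⟨f, hf⟩ := h.exists_uniform hc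
    have hfm : Measurable f := h.measurable f
    have h1 : ∀ N ∈ F, μ (f ⁻¹' (((↑) : unitInterval → ℝ) ⁻¹' N)) = 0 := by
      intro N hN
      obtain ⟨t, ht1, ht2, ht3⟩ := exists_measurable_superset_of_null (hF0 N hN)
      refine measure_mono_null (preimage_mono (preimage_mono ht1)) ?_
      rw [← Measure.map_apply hfm (ht2.preimage measurable_subtype_coe), hf,
        unitInterval.volume_def,
        (MeasurableEmbedding.subtype_coe measurableSet_Icc).comap_apply]
      exact measure_mono_null (image_preimage_subset _ _) ht3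
    have h2 : μ (⋃ N : F, f ⁻¹' (((↑) : unitInterval → ℝ) ⁻¹' (N : Set ℝ))) = 0 := by
      refine h.null_iUnion ?_ _ fun N => h1 N N.2
      have : #F = covNull := hF
      rw [this]; exact hcov
    have h3 : (Set.univ : Set X) ⊆ ⋃ N : F, f ⁻¹' (((↑) : unitInterval → ℝ) ⁻¹' (N : Set ℝ)) := by
      intro x _
      have : (f x : ℝ) ∈ ⋃₀ F := by rw [hFc]; trivial
      obtain ⟨N, hN, hxN⟩ := this
      exact mem_iUnion.2 ⟨⟨N, hN⟩, hxN⟩
    have h4 := measure_mono_null h3 h2
    rw [h.tot] at h4
    exact one_ne_zero h4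
  tfae_have 2 → 3 := by
    intro h2 ν hν hinf
    by_contra hcon
    push Not at hcon
    exact absurd (covNull_le_of_law hA ν hinf hcon) (not_le.2 h2)
  tfae_finish

end Pool.Agent.Results.MP_da56a7_lc.Equivalence
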