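import Mathlib
import Pool.Agent.helper751_mad.Defs
import Pool.Agent.helper751_mad.Defs2
import Pool.Agent.helper751_mad.Spec

set_option autoImplicit false
open MeasureTheory Set Cardinal Pool.Agent.helper751_mad

namespace Pool.Agent.Results.MP_da56a7_lc.Spectrum

/-- Let `#X ≤ 𝔠` be real-valued measurable and let `#Λ < #X` be at least the dominating number.
Suppose that `#Λ` is some `ℵ_n` or, more generally, that there is a cofinal family of `#Λ` countable
subsets of `Λ`. Then there is an infinite maximal almost disjoint family of size `#Λ` exactly when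
the complement of some set of size `#Λ` in the Cantor space is a union of at most `#Λ` closed sets,
and exactly when the complement of the union of some family of `#Λ` pairwise disjoint nonempty
closed sets is a union of at most `#Λ` analytic sets. -/
theorem result (X : Type) [MeasurableSpace X] (μ : Measure X) (h : IsRVM X μ) (hc : #X ≤ 𝔠)
    (Λ : Type) (hΛ : #Λ < #X) (hD : ∃ D : Set (ℕ → ℕ), Dominating D ∧ #D ≤ #Λ)
    (hS : (∃ n : ℕ, #Λ = ℵ_ n) ∨ ∃ S : Set (Set Λ), #S ≤ #Λ ∧ CofCountable S) :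
    List.TFAE [
      ∃ A : Set (Set ℕ), IsMAD A ∧ #A = #Λ,
      ∃ Z : Set (ℕ → Bool), #Z = #Λ ∧ ∃ C : Set (Set (ℕ → Bool)), #C ≤ #Λ ∧
        (∀ c ∈ C, IsClosed c) ∧ ⋃₀ C = Zᶜ,
      ∃ K L : Set (Set (ℕ → Bool)), #K = #Λ ∧ (∀ k ∈ K, IsClosed k ∧ k.Nonempty) ∧
        (∀ k ∈ K, ∀ k' ∈ K, k ≠ k' → Disjoint k k') ∧ #L ≤ #Λ ∧
        (∀ l ∈ L, AnalyticSet l) ∧ ⋃₀ L = (⋃₀ K)ᶜ] :=
  h.tfae_spectrum hc hΛ hD hS

end Pool.Agent.Results.MP_da56a7_lc.Spectrum
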